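import Pool.Agent.W402.HI.Final

/-!
# MP_f981b0_an: spectrum partly on a Lipschitz curve, Banach spaces

Let `T = S + K` be a bounded operator on a complex Banach space `X`. Suppose that in an open set `U` the
resolvent of `S` exists off a Lipschitz curve `Γ` (the image of `[0,1]` under a Lipschitz map: not
necessarily smooth, not necessarily simple), and that its growth at `Γ` is matched with the
approximability of `K`: for every `δ` in `(0,1]` there are `R ≤ exp (C / δ ^ k)` and `G` of rank at most
`C / δ ^ k` with `‖K - G‖ R ≤ 1 / 2` and `‖(z - S)⁻¹‖ ≤ R` for the `z` in `U` of distance at least `δ`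
from `Γ`. If the spectrum of `T` meets `U` and has at least two points, then `T` has a nontrivial closed
hyperinvariant subspace.

Special cases: (1) `K = 0`: the resolvent of `T` has growth `exp (C / dist (z, Γ) ^ k)` near a part of
`Γ` which meets the spectrum; (2) the resolvent of `S` has polynomial growth, the approximation numbers of
`K` are `O(m ^ (-ε))` (Schatten classes on Hilbert spaces); (3) the resolvent of `S` has growth
`exp (C / dist ^ k)`, those of `K` are `O(exp (-m ^ ε))`. No condition is put on the spectrum outside
of `U`. For smooth arcs results of this kind are due to Dunford and Schwartz, Lyubich and Matsaev,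
Radjavi and Rosenthal, Apostol; their methods need tangents and normals at all points of the curve.

The theorem is project HI of helper402 of the starting repository (parts formalised by helpers 816, 261,
402, 613, 778, 85, 366, 320, 324, 991, 577, 806, 32, 287, 340), which was handed in there only through its
consequence for reductive operators (`Results/MP_49c4d9_an/ReductiveRectifiable`). Idea: almost every
vertical line meets a rectifiable curve in finitely many points and is transversal to it there; cut-off
functions which are asymptotically holomorphic at these points give two operators `∫ ∂̄F (z - T)⁻¹` with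
product zero which commute with the commutant of `T`; the growth of the resolvent of `S + K` in cones about
the normals is controlled by perturbation determinants and a lower bound for zero-free functions.
-/

set_option autoImplicit false

open Filter Topology MeasureTheory Metric

namespace Pool.Agent.Results.MP_f981b0_an.LipschitzCurveBanach

/-- `Γ` is the image of `[0,1]` under a Lipschitz map. -/
def LipschitzCurve (Γ : Set ℂ) : Prop :=
  ∃ (γ : ℝ → ℂ) (L : NNReal), LipschitzWith L γ ∧ Γ = γ '' Set.Icc 0 1

/-- `T` has a closed subspace, neither `{0}` nor the whole space, which is invariant under all bounded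
operators that commute with `T`. -/
def HasHyperinvariant {X : Type} [NormedAddCommGroup X] [NormedSpace ℂ X] (T : X →L[ℂ] X) : Prop :=
  ∃ V : Submodule ℂ X, IsClosed (V : Set X) ∧ V ≠ ⊥ ∧ V ≠ ⊤ ∧
    ∀ Q : X →L[ℂ] X, Q * T = T * Q → ∀ x ∈ V, Q x ∈ V

/-- In `U` the resolvent of `S` exists off `Γ`, and its growth at `Γ`, at most exponential in a power of
the inverse of the distance, is matched with the approximability of `K` by operators of finite rank. -/
def Matched {X : Type} [NormedAddCommGroup X] [NormedSpace ℂ X] (S K : X →L[ℂ] X) (Γ U : Set ℂ) :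
    Prop :=
  ∃ (C : ℝ) (k : ℕ), ∀ δ : ℝ, 0 < δ → δ ≤ 1 → ∃ (G : X →L[ℂ] X) (R : ℝ),
    FiniteDimensional ℂ (LinearMap.range (G : X →ₗ[ℂ] X)) ∧
    (Module.finrank ℂ (LinearMap.range (G : X →ₗ[ℂ] X)) : ℝ) ≤ C / δ ^ k ∧
    1 ≤ R ∧ R ≤ Real.exp (C / δ ^ k) ∧ ‖K - G‖ * R ≤ 1 / 2 ∧
    ∀ z ∈ U, δ ≤ infDist z Γ → z ∈ resolventSet ℂ S ∧ ‖resolvent S z‖ ≤ R

/-- **Hyperinvariant subspaces of operators whose spectrum lies partly on a Lipschitz curve, and of their
perturbations.** -/
theorem result (X : Type) [NormedAddCommGroup X] [NormedSpace ℂ X] [CompleteSpace X]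
    (S K : X →L[ℂ] X) (Γ U : Set ℂ) (hΓ : LipschitzCurve Γ) (hU : IsOpen U) (hM : Matched S K Γ U)
    (hp : ∃ p ∈ spectrum ℂ (S + K), p ∈ U) (hn : (spectrum ℂ (S + K)).Nontrivial) :
    HasHyperinvariant (S + K) := by
  obtain ⟨γ, L, hγ, rfl⟩ := hΓ
  obtain ⟨C, k, hM⟩ := hM
  exact Pool.Agent.W402.HI.Asm.perturbGen Pool.Agent.W402.HI.Final.hH2
    Pool.Agent.W402.HI.Final.hE3 Pool.Agent.W324.HI.E4.main X S K γ L hγ U hU C k hM hp hn

end Pool.Agent.Results.MP_f981b0_an.LipschitzCurveBanach
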