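import Pool.Agent.W402.HI.Final

/-!
# MP_f981b0_an: perturbations of normal operators whose spectrum lies partly on a Lipschitz curve

Let `N` be a normal operator on a complex Hilbert space and `K` an operator in a Schatten class, or more
generally with approximation numbers `O(m ^ (-ε))`. Suppose that the part of the spectrum of `N` in an
open set `U` lies on a Lipschitz curve (the rest of the spectrum is arbitrary, it may have interior), and
that the spectrum of `N + K` meets `U`. Then `N + K` is a multiple of the identity or has a nontrivial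
closed hyperinvariant subspace.

The theorem is part of project HI of helper402 of the starting repository (see `LipschitzCurveBanach` for
the idea and the authors of the parts); the case where the spectrum of `N + K` is one point uses the
theorem of Lomonosov.
-/

set_option autoImplicit false

open Filter Topology MeasureTheory Metric

namespace Pool.Agent.Results.MP_f981b0_an.NormalPartlyOnCurve

/-- `Γ` is the image of `[0,1]` under a Lipschitz map. -/
def LipschitzCurve (Γ : Set ℂ) : Prop :=
  ∃ (γ : ℝ → ℂ) (L : NNReal), LipschitzWith L γ ∧ Γ = γ '' Set.Icc 0 1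

/-- `T` has a closed subspace, neither `{0}` nor the whole space, which is invariant under all bounded
operators that commute with `T`. -/
def HasHyperinvariant {X : Type} [NormedAddCommGroup X] [NormedSpace ℂ X] (T : X →L[ℂ] X) : Prop :=
  ∃ V : Submodule ℂ X, IsClosed (V : Set X) ∧ V ≠ ⊥ ∧ V ≠ ⊤ ∧
    ∀ Q : X →L[ℂ] X, Q * T = T * Q → ∀ x ∈ V, Q x ∈ V

/-- The approximation numbers of `K` decay polynomially: for all `m ≥ 1` there is an operator `G` of rank
at most `m` with `‖K - G‖ ≤ C / m ^ ε`. -/
def PolyDecay {H : Type} [NormedAddCommGroup H] [InnerProductSpace ℂ H] (K : H →L[ℂ] H) : Prop :=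
  ∃ C ε : ℝ, 0 < ε ∧ ∀ m : ℕ, 1 ≤ m → ∃ G : H →L[ℂ] H,
    FiniteDimensional ℂ (LinearMap.range (G : H →ₗ[ℂ] H)) ∧
    Module.finrank ℂ (LinearMap.range (G : H →ₗ[ℂ] H)) ≤ m ∧ ‖K - G‖ ≤ C / (m : ℝ) ^ ε

/-- **Perturbations of normal operators whose spectrum lies partly on a Lipschitz curve.** -/
theorem result (H : Type) [NormedAddCommGroup H] [InnerProductSpace ℂ H] [CompleteSpace H]
    (N K : H →L[ℂ] H) (hN : IsStarNormal N) (Γ U : Set ℂ) (hΓ : LipschitzCurve Γ) (hU : IsOpen U)
    (hNU : spectrum ℂ N ∩ U ⊆ Γ) (hK : PolyDecay K) (hp : (spectrum ℂ (N + K) ∩ U).Nonempty) :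
    (∃ c : ℂ, N + K = c • (1 : H →L[ℂ] H)) ∨ HasHyperinvariant (N + K) := by
  obtain ⟨γ, L, hγ, rfl⟩ := hΓ
  by_cases hs : Pool.Agent.W402.HI.IsScalar (N + K)
  · exact Or.inl hs
  · obtain ⟨p, hp1, hp2⟩ := hp
    exact Or.inr (Pool.Agent.W402.HI.Asm.normal Pool.Agent.W402.HI.Final.hH2
      Pool.Agent.W402.HI.Final.hE3 Pool.Agent.W324.HI.E4.main Pool.Agent.W991.HI.E5.main
      Pool.Agent.W991.HI.E5L.main Pool.Agent.W577.HI.G1.main Pool.Agent.W806.HI.main
      Pool.Agent.W32.HI.G3.main H N K hN γ L hγ U hU (fun z h1 h2 => hNU ⟨h1, h2⟩) hK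
      ⟨p, hp1, hp2⟩ hs)

end Pool.Agent.Results.MP_f981b0_an.NormalPartlyOnCurve
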