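import Pool.Agent.R277.SP.Unc

/-!
# Rank one perturbations of scalar type operators on reflexive Banach spaces (MP_f981b0_an)

Let `X` be a complex Banach space and `N` an operator on `X` with a bounded functional calculus `Φ` for the
continuous functions on a compact set `K ⊂ ℂ`, `Φ(z) = N` (on a reflexive space these are the scalar type
operators of Dunford: multiplication operators on `L^p`, diagonal operators with respect to unconditional
decompositions, ...). Let `u ∈ X`, `v ∈ X*` and `T x = N x + v(x) u`. If `X` is reflexive, or if only the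
vectors `Φ(h) u`, `|h| ≤ 1`, form a relatively weakly compact set, then `T` is a multiple of the identity or
has a nontrivial closed hyperinvariant subspace. No condition is put on the spectrum of `N`, on `u` and on
`v`. Moreover every point `c` of the spectrum of `T` carries, for every `ε > 0`, a nonzero vector `x` with
`‖(T - c)^n x‖ ≤ C ε^n` for all `n`, and the same holds for the adjoint of `T`.

As a corollary (`diagonal`), on an arbitrary Banach space with an unconditional basis (reflexive or not, e.g.
`ℓ^p`, `1 ≤ p < ∞`, or `c_0`) all this holds for all rank one perturbations of diagonal operators.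

For normal operators on separable Hilbert spaces this is the starting result `RankOnePerturbations`
(helper271 and others), whose scalar parts (area Cauchy transforms, the alternative for
`f(z) = 1 - ⟨v, (z - N)⁻¹ u⟩`, polygons, Weyl's lemma, convergence almost everywhere) are used here. There the
vectors are constructed in `L²(μ)` with the Borel functional calculus. Here only `Φ` and the scalar measures
`⟨y, Φ(·) x⟩` are available.

Proof. For a bounded function `g` of compact support `h(w) = ∫ g(z) / (z - w) dA(z)` is continuous; put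
`Y(g) = Φ(h) u`. Then `T Y(g) = Y(z g) - (∫ f g dA) u`. If `f = 0` on a set `A` of positive area near `a`, the
vectors `Y((z - a)^k 1_A)` are a chain, and `v(Y(1_A))` is the area of `A`. Otherwise the alternative gives
(A) functions `q_n` with `∫ |f| |∂̄ q_n| → 0`, bounded, tending in modulus to `|(z - a)(z - b)|^(1/2)`, or
(B) cut-off functions `Θ_n` with `∂̄ Θ_n - f g_n → 0` in `L¹`, `g_n` bounded. In case (A), if all weak limits of
`Y((z - a)^k ψ ∂̄ q_n)` vanish, then testing with the functionals `v ∘ Φ(c)` only gives the hypotheses of the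
scalar argument in `L²` of a measure dominating `⟨v, Φ(·) u⟩`, which ends in a contradiction (if this measure
is zero, then `f = 1` and (B) holds). In case (B) `N - a` is surjective modulo `u`; then `Φ` has rank at most
one near `a`, so `T - a` is an invertible operator plus a compact one, and `a` is outside the spectrum of
`T` or an eigenvalue. Weak limits exist in `X` by the compactness hypothesis, and for the adjoint of `T` in
`X*` by the theorem of Alaoglu, the functionals being the elements of `X`; so reflexivity is not needed for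
the adjoint. If the spectrum of `T` has two points, the vectors for `T` and `T*` annihilate each other. If it
is one point `c`, the closed ideal of the `h` with `Φ(h)` compact contains `z - c`, so `T - c` is compact, and
Lomonosov's theorem applies.
-/

set_option autoImplicit false

namespace Pool.Agent.Results.MP_f981b0_an.RankOneScalarType

section Defs

variable {X : Type} [NormedAddCommGroup X] [NormedSpace ℂ X]

/-- `T` is a multiple of the identity. -/
def IsScalar (T : X →L[ℂ] X) : Prop := ∃ c : ℂ, T = c • (1 : X →L[ℂ] X)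

/-- `T` has a closed subspace, neither `{0}` nor the whole space, which is invariant under every
bounded operator commuting with `T`. -/
def HasHyperinvariant (T : X →L[ℂ] X) : Prop :=
  ∃ V : Submodule ℂ X, IsClosed (V : Set X) ∧ V ≠ ⊥ ∧ V ≠ ⊤ ∧
    ∀ Q : X →L[ℂ] X, Q * T = T * Q → ∀ x ∈ V, Q x ∈ V

/-- For every point `c` of the spectrum and every `ε > 0` there is a nonzero vector `x` with
`‖(T - c)^n x‖ ≤ C ε ^ n` for all `n`. -/
def SmallLocalSpectra (T : X →L[ℂ] X) : Prop :=
  ∀ c ∈ spectrum ℂ T, ∀ ε : ℝ, 0 < ε → ∃ (x : X) (C : ℝ), x ≠ 0 ∧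
    ∀ n : ℕ, ‖((T - c • (1 : X →L[ℂ] X)) ^ n) x‖ ≤ C * ε ^ n

/-- The adjoint `f ↦ f ∘ T` on the dual space. -/
noncomputable def adjoint (T : X →L[ℂ] X) : (X →L[ℂ] ℂ) →L[ℂ] (X →L[ℂ] ℂ) :=
  (ContinuousLinearMap.compL ℂ X X ℂ).flip T

/-- The conclusion: `T` is a multiple of the identity or has a nontrivial hyperinvariant subspace, and `T`
and its adjoint have small local spectra. -/
def Conclusion (T : X →L[ℂ] X) : Prop :=
  (IsScalar T ∨ HasHyperinvariant T) ∧ SmallLocalSpectra T ∧ SmallLocalSpectra (adjoint T)

/-- `T = N + u ⊗ v`, that is, `T x = N x + v(x) u`. -/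
def IsPerturbation (N T : X →L[ℂ] X) (u : X) (v : X →L[ℂ] ℂ) : Prop := ∀ x, T x = N x + v x • u

/-- `X` is reflexive: every functional on the dual space is the evaluation at a point of `X`. -/
def Reflexive (X : Type) [NormedAddCommGroup X] [NormedSpace ℂ X] : Prop :=
  ∀ G : (X →L[ℂ] ℂ) →L[ℂ] ℂ, ∃ x : X, ∀ f : X →L[ℂ] ℂ, G f = f x

/-- The algebra homomorphism `Φ` is a bounded functional calculus of `N` for the continuous functions on
the compact set `K`. -/
structure IsCalculus (K : Set ℂ) (Φ : C(K, ℂ) →ₐ[ℂ] (X →L[ℂ] X)) (N : X →L[ℂ] X) : Prop where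
  compact : IsCompact K
  bounded : ∃ M : ℝ, ∀ (h : C(K, ℂ)) (B : ℝ), 0 ≤ B → (∀ s, ‖h s‖ ≤ B) → ‖Φ h‖ ≤ M * B
  identity : ∀ h : C(K, ℂ), (∀ s : K, h s = s) → Φ h = N

/-- The vectors `Φ(h) u`, `|h| ≤ 1`, form a relatively weakly compact set. -/
def WeaklyCompactOrbit {K : Set ℂ} (Φ : C(K, ℂ) →ₐ[ℂ] (X →L[ℂ] X)) (u : X) : Prop :=
  IsCompact (closure (toWeakSpace ℂ X '' {y | ∃ h : C(K, ℂ), (∀ s, ‖h s‖ ≤ 1) ∧ y = Φ h u}))

/-- `e` is an unconditional basis of `X` with the coefficient functionals `f`: the sums
`x = ∑ f n (x) e n` converge unconditionally. -/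
structure UnconditionalBasis (e : ℕ → X) (f : ℕ → (X →L[ℂ] ℂ)) : Prop where
  biorthogonal : ∀ i j, f i (e j) = if i = j then 1 else 0
  sum : ∀ x, HasSum (fun n => f n x • e n) x

/-- `D` is diagonal with respect to `e`. -/
def IsDiagonal (e : ℕ → X) (D : X →L[ℂ] X) : Prop := ∀ n, ∃ l : ℂ, D (e n) = l • e n

end Defs

/-- Corollary: rank one perturbations of diagonal operators with respect to unconditional bases, on all
Banach spaces. -/
theorem diagonal (X : Type) [NormedAddCommGroup X] [NormedSpace ℂ X] [CompleteSpace X] (e : ℕ → X)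
    (f : ℕ → (X →L[ℂ] ℂ)) (he : UnconditionalBasis e f) (D T : X →L[ℂ] X) (hD : IsDiagonal e D)
    (u : X) (v : X →L[ℂ] ℂ) (hT : IsPerturbation D T u v) : Conclusion T := by
  choose l hl using hD
  exact Pool.Agent.R277.SP.diag ⟨he.biorthogonal, he.sum⟩ hl hT

/-- **Rank one perturbations of scalar type operators have hyperinvariant subspaces.** Let `X` be a
Banach space, `Φ` a bounded functional calculus of the operator `N` on `X` for the continuous functions on
a compact set `K`, `u ∈ X`, `v ∈ X*`, `T x = N x + v(x) u`. Let `X` be reflexive, or let the orbit of `u` be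
weakly compact. Then `T` is a multiple of the identity or has a nontrivial closed hyperinvariant
subspace, and `T` and its adjoint have small local spectra. -/
theorem result (X : Type) [NormedAddCommGroup X] [NormedSpace ℂ X] [CompleteSpace X] (K : Set ℂ)
    (Φ : C(K, ℂ) →ₐ[ℂ] (X →L[ℂ] X)) (N T : X →L[ℂ] X) (hΦ : IsCalculus K Φ N) (u : X)
    (v : X →L[ℂ] ℂ) (hu : Reflexive X ∨ WeaklyCompactOrbit Φ u) (hT : IsPerturbation N T u v) :
    Conclusion T := by
  have : CompactSpace K := isCompact_iff_compactSpace.1 hΦ.compact
  obtain ⟨M, hM⟩ := hΦ.bounded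
  have hF : Pool.Agent.R277.SP.FC Φ N |M| := by
    refine ⟨abs_nonneg M, fun h => ?_, hΦ.identity _ fun s => rfl⟩
    exact (hM h ‖h‖ (norm_nonneg _) fun s => h.norm_coe_le_norm s).trans
      (mul_le_mul_of_nonneg_right (le_abs_self M) (norm_nonneg _))
  refine Pool.Agent.R277.SP.main hF hT ?_
  rcases hu with hu | hu
  · exact Pool.Agent.R277.SP.lim_refl hu Φ u
  · refine Pool.Agent.R277.SP.lim_wco Φ u ?_
    have e : {y | ∃ h : C(K, ℂ), ‖h‖ ≤ 1 ∧ y = Φ h u} =
        {y | ∃ h : C(K, ℂ), (∀ s, ‖h s‖ ≤ 1) ∧ y = Φ h u} := by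
      ext y
      constructor
      · rintro ⟨h, h1, h2⟩
        exact ⟨h, (ContinuousMap.norm_le _ zero_le_one).1 h1, h2⟩
      · rintro ⟨h, h1, h2⟩
        exact ⟨h, (ContinuousMap.norm_le _ zero_le_one).2 h1, h2⟩
    unfold Pool.Agent.R277.SP.WCO
    rw [e]
    exact hu

end Pool.Agent.Results.MP_f981b0_an.RankOneScalarType
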