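import Pool.Agent.H952R2.TY.P.FIN2
import Pool.Agent.H952R2.TY.P.A1
import Pool.Agent.H952R2.TY.P.A2
import Pool.Agent.H952R2.TY.P.A3
import Pool.Agent.H952R2.TY.P.A4
import Pool.Agent.H952R2.TY.P.A5
import Pool.Agent.H952R2.TY.P.A6
import Pool.Agent.H952R2.TY.P.A7
import Pool.Agent.H952R2.TY.P.A8
import Pool.Agent.H952R2.TY.P.A9
import Pool.Agent.H952R2.TY.P.A10
import Pool.Agent.H952R2.TY.P.A11
import Pool.Agent.H952R2.TY.P.A12
import Pool.Agent.H952R2.TY.P.B0
import Pool.Agent.H952R2.TY.P.B1
import Pool.Agent.H952R2.TY.P.B2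
import Pool.Agent.H952R2.TY.P.B3
import Pool.Agent.H952R2.TY.P.B4
import Pool.Agent.H952R2.TY.P.B5
import Pool.Agent.H952R2.TY.P.B6
import Pool.Agent.H952R2.TY.P.B7
import Pool.Agent.H952R2.TY.P.C1
import Pool.Agent.H952R2.TY.P.C2
import Pool.Agent.H952R2.TY.P.C3
import Pool.Agent.H952R2.TY.P.C4
import Pool.Agent.H952R2.TY.P.C5
import Pool.Agent.H952R2.TY.P.C6
import Pool.Agent.H952R2.TY.P.D1
import Pool.Agent.H952R2.TY.P.D2
import Pool.Agent.H952R2.TY.P.D3
import Pool.Agent.H952R2.TY.P.D4
import Pool.Agent.H952R2.TY.P.D5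
import Pool.Agent.H952R2.TY.P.D6
import Pool.Agent.H952R2.TY.P.D7
import Pool.Agent.H952R2.TY.P.T1
import Pool.Agent.H952R2.TY.P.T2
import Pool.Agent.H952R2.TY.P.T3
import Pool.Agent.H952R2.TY.P.T4
import Pool.Agent.H952R2.TY.P.T5
import Pool.Agent.H952R2.TY.P.T6
import Pool.Agent.H952R2.TY.P.T7
import Pool.Agent.H952R2.TY.P.T8

/-!
# MP_f981b0_an: typical quasinilpotent contractions of McDuff algebras

Let `M` be a finite von Neumann algebra on a Hilbert space with a faithful normal tracial state `τ` such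
that every operator of `M` almost commutes, in the 2-norm `‖x‖₂ = τ (x* x) ^ (1/2)`, with systems of
`m × m` matrix units of `M`, for all `m` (every McDuff II_1 factor has this property, for instance the
hyperfinite one and `M₀ ⊗ R` for every II_1 factor `M₀`). For operators of `M` whose Brown measure is not
a point mass hyperinvariant projections in `M` are known (Haagerup, Schultz). The case left open is, up to
a scalar, that of the operators which are quasinilpotent in measure: for every `r > 0` some power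
`T ^ n` has norm at most `r ^ n` on the range of a projection of `M` of trace at least `1 - r`.

The contractions of `M` with this property form a Baire space for the 2-norm, and its typical element
`T` is injective and has a projection `E` in `M` of trace `1/2` whose range is invariant under all
operators of `M` which commute with `T`; in particular the range of `E` is a nontrivial closed invariant
subspace of `T`.

Paper proof and statements of the parts: helper952 (starting repository, never handed in); formal proofs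
of the parts: helpers of the starting repository. Outline: near a given `T` there are nilpotent operators
of the algebra; an almost commuting system of matrix units of size `2 (p + 1)` is split as `2 × 2` units
tensor `(p + 1) × (p + 1)` units, with the latter one adds a small shift which makes the powers of the new
operator large, and rotates a given approximate spectral projection (of a power, on the graph of the power)
to a projection of trace `1/2` at a controlled 2-distance; a Baire category argument finishes the proof.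
-/

set_option autoImplicit false
open Filter Topology
open scoped ComplexOrder InnerProductSpace

namespace Pool.Agent.Results.MP_f981b0_an.TypicalMcDuff

open Pool.Agent.H952R2.TY

variable {H : Type} [NormedAddCommGroup H] [InnerProductSpace ℂ H] [CompleteSpace H]

/-- `τ` is a faithful normal tracial state on the von Neumann algebra `M` (normal: continuous on the unit
ball for sequences which converge strongly; the values of `τ` outside of `M` do not matter). -/
structure FaithfulNormalTrace (M : VonNeumannAlgebra H) (τ : (H →L[ℂ] H) →ₗ[ℂ] ℂ) : Prop where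
  one : τ 1 = 1
  nonneg : ∀ x ∈ M, 0 ≤ τ (star x * x)
  faithful : ∀ x ∈ M, τ (star x * x) = 0 → x = 0
  trace : ∀ x ∈ M, ∀ y ∈ M, τ (x * y) = τ (y * x)
  normal : ∀ (x : ℕ → (H →L[ℂ] H)) (y : H →L[ℂ] H), (∀ n, x n ∈ M) → (∀ n, ‖x n‖ ≤ 1) → y ∈ M →
    (∀ v, Tendsto (fun n => x n v) atTop (𝓝 (y v))) → Tendsto (fun n => τ (x n)) atTop (𝓝 (τ y))

/-- `e` is a system of `m × m` matrix units with sum `1`. -/
structure MatrixUnits {m : ℕ} (e : Fin m → Fin m → (H →L[ℂ] H)) : Prop where
  mul : ∀ i j k l, e i j * e k l = if j = k then e i l else 0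
  adj : ∀ i j, star (e i j) = e j i
  sum : ∑ i, e i i = 1

/-- The McDuff property (for single operators): every operator of `M` almost commutes, in the 2-norm, with
`m × m` matrix units of `M`, for every `m ≥ 1`. -/
def McDuff (M : VonNeumannAlgebra H) (τ : (H →L[ℂ] H) →ₗ[ℂ] ℂ) : Prop :=
  ∀ m : ℕ, 1 ≤ m → ∀ T ∈ M, ∀ ε : ℝ, 0 < ε → ∃ e : Fin m → Fin m → (H →L[ℂ] H),
    MatrixUnits e ∧ (∀ i j, e i j ∈ M) ∧
    ∀ i j, (τ (star (e i j * T - T * e i j) * (e i j * T - T * e i j))).re ≤ ε

/-- The contractions `op` of `M` that are quasinilpotent in measure: for every `r > 0` there are `n ≥ 1`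
and a projection `q` of `M` of trace at least `1 - r` with `‖op ^ n * q‖ ≤ r ^ n` (the structure `QC` of
`Pool.Agent.H952R2.TY`). -/
abbrev QN (M : VonNeumannAlgebra H) (τ : (H →L[ℂ] H) →ₗ[ℂ] ℂ) : Type := QC M τ

/-- The closed subspace `V`, neither `{0}` nor `H`, is the range of a projection of `M` of trace `1/2`
and is invariant under all operators of `M` which commute with `T`. -/
def HyperinvariantInM (M : VonNeumannAlgebra H) (τ : (H →L[ℂ] H) →ₗ[ℂ] ℂ) (T : H →L[ℂ] H)
    (V : Submodule ℂ H) : Prop :=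
  IsClosed (V : Set H) ∧ V ≠ ⊥ ∧ V ≠ ⊤ ∧
    (∃ E ∈ M, IsStarProjection E ∧ τ E = 1 / 2 ∧ ∀ v, v ∈ V ↔ E v = v) ∧
    ∀ S ∈ M, S * T = T * S → ∀ v ∈ V, S v ∈ V

theorem c2 : S_C2 := P.C2
theorem c1 : S_C1 := P.C1 P.A1
theorem c3 : S_C3 := P.C3 c2
theorem c6 : S_C6 := P.C6 c2
theorem d1 : S_D1 := P.D1 c1 c2

theorem a10 : S_A10 := P.A10 P.A1 P.A2 P.A3 (P.A4 P.A3) P.A5 P.A6 P.A7 P.A8 P.A9

theorem a12 : S_A12 := P.A12 a10 P.A11

theorem b7 : S_B7 := P.B7 P.B0 P.B1 (P.B2 P.B0 P.B1) P.B3 P.B4 (P.B5 P.B3) P.B6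

theorem step2 : P.S_STEP2 :=
  P.STEP2 a12 P.B0 b7 c1 (P.C4 c1 c2 c3) c6 d1 (P.D2 c2 d1) P.D3 P.D4 P.D5 P.D6 P.D7

theorem fin2 : P.S_FIN2 :=
  P.FIN2 (P.T4 P.T1 (P.T3 P.T2)) P.T5 (P.T6 P.T1) (P.T7 P.T1 (P.T3 P.T2) P.D5) (P.T8 c1 c6) step2
    (P.C5 c2)

/-- **Typical quasinilpotent contractions of McDuff algebras have nontrivial closed subspaces invariant
under their commutants in the algebra.** -/
theorem result (H : Type) [NormedAddCommGroup H] [InnerProductSpace ℂ H] [CompleteSpace H]
    (M : VonNeumannAlgebra H) (τ : (H →L[ℂ] H) →ₗ[ℂ] ℂ) (hτ : FaithfulNormalTrace M τ)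
    (hM : McDuff M τ) :
    ∃ _ : MetricSpace (QN M τ),
      (∀ S T : QN M τ, dist S T = Real.sqrt (τ (star (S.op - T.op) * (S.op - T.op))).re) ∧
      BaireSpace (QN M τ) ∧
      {T : QN M τ | (∀ v, T.op v = 0 → v = 0) ∧
        ∃ V : Submodule ℂ H, HyperinvariantInM M τ T.op V} ∈ residual (QN M τ) := by
  obtain ⟨mm, h1, h2, h3⟩ := fin2 H M τ hτ.one hτ.nonneg hτ.faithful hτ.trace hτ.normal
    (by
      intro m hm T hT ε hε
      obtain ⟨e, h1, h2, h3⟩ := hM m hm T hT ε hε
      exact ⟨e, h2, h1.mul, h1.adj, h1.sum, h3⟩)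
  refine ⟨mm, h1, h2, Filter.mem_of_superset h3 ?_⟩
  rintro T ⟨h4, E, hE, hE1, hE2, hE3, hE4⟩
  refine ⟨h4, LinearMap.range (E : H →ₗ[ℂ] H), ?_, ?_, ?_, ⟨E, hE, ⟨hE2, hE1⟩, hE3, ?_⟩, ?_⟩
  · have h5 : (LinearMap.range (E : H →ₗ[ℂ] H) : Set H) = {v | E v = v} := by
      ext v
      constructor
      · rintro ⟨w, rfl⟩
        exact congrArg (fun A : H →L[ℂ] H => A w) hE2
      · intro hv
        exact ⟨v, hv⟩
    rw [h5]
    exact isClosed_eq E.continuous continuous_id
  · intro h5
    have h6 : E = 0 := by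
      ext v
      have : E v ∈ LinearMap.range (E : H →ₗ[ℂ] H) := ⟨v, rfl⟩
      rw [h5, Submodule.mem_bot] at this
      exact this
    rw [h6, map_zero] at hE3
    norm_num at hE3
  · intro h5
    have h6 : E = 1 := by
      ext v
      obtain ⟨w, hw⟩ : v ∈ LinearMap.range (E : H →ₗ[ℂ] H) := by rw [h5]; trivial
      have h7 : E (E w) = E w := congrArg (fun A : H →L[ℂ] H => A w) hE2
      change E w = v at hw
      rw [hw] at h7
      exact h7
    rw [h6, hτ.one] at hE3
    norm_num at hE3
  · intro v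
    constructor
    · rintro ⟨w, rfl⟩
      exact congrArg (fun A : H →L[ℂ] H => A w) hE2
    · intro hv
      exact ⟨v, hv⟩
  · rintro S hS hST v ⟨w, rfl⟩
    have h5 := congrArg (fun A : H →L[ℂ] H => A w) (hE4 S hS hST)
    exact ⟨S (E w), h5.symm⟩

end Pool.Agent.Results.MP_f981b0_an.TypicalMcDuff
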